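import Mathlib
import Pool.Agent.H.MP_711652_nt.LG.Final
import Pool.Agent.H.MP_711652_nt.LG.MLC
import Pool.Agent.H.MP_711652_nt.LG.Stage1

set_option autoImplicit false

namespace Pool.Agent.Results.MP_711652_nt.LargeGaps

/-- Large gaps between consecutive primes: some gap `(p_k, p_(k+1))` meets `[X, X + X^θ]` in length
at least `c θ log X (loglog X)^2 loglogloglog X / (logloglog X)^2`. -/
theorem result : ∃ c : ℝ, 0 < c ∧ ∀ θ : ℝ, 0 < θ → θ ≤ 1 → ∃ X₀ : ℝ, ∀ X : ℝ, X₀ ≤ X → ∃ k : ℕ,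
    max (Nat.nth Nat.Prime k : ℝ) X +
      c * θ * (Real.log X * Real.log (Real.log X) ^ 2 *
        Real.log (Real.log (Real.log (Real.log X))) / Real.log (Real.log (Real.log X)) ^ 2) ≤
    min (Nat.nth Nat.Prime (k + 1) : ℝ) (X + X ^ θ) :=
  Pool.Agent.H.MP_711652_nt.LG.full_of
    (Pool.Agent.H.MP_711652_nt.LG.local_of Pool.Agent.H.MP_711652_nt.LG.ml
      Pool.Agent.H.MP_711652_nt.LG.stage1)

end Pool.Agent.Results.MP_711652_nt.LargeGaps
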