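import Mathlib
import Pool.Agent.H.MP_711652_nt.CG.GMb

/-!
# Chains of consecutive long gaps between primes
-/

set_option autoImplicit false

namespace Pool.Agent.Results.MP_711652_nt.LongGapChains

/-- The `K` gaps between consecutive primes that begin at `q = Nat.nth Nat.Prime n` are all at least
`lam log q`, and their sum is at most `C K^2 lam log q`. -/
def Chain (C : ℝ) (K : ℕ) (lam : ℝ) (n : ℕ) : Prop :=
  (∀ i < K, (Nat.nth Nat.Prime (n + i) : ℝ) + lam * Real.log (Nat.nth Nat.Prime n) ≤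
    Nat.nth Nat.Prime (n + i + 1)) ∧
  (Nat.nth Nat.Prime (n + K) : ℝ) ≤
    Nat.nth Nat.Prime n + C * (K ^ 2 * lam) * Real.log (Nat.nth Nat.Prime n)

/-- There are absolute constants `c`, `C`, `X₀` with `c C ≤ 1/2` such that for all `X ≥ X₀`, `K ≥ 1`
and `lam ≥ 1` with `K^2 lam ≤ c log log X` at least `exp (-exp (C K^2 lam)) X / log X` of the primes in
`(X, 2X]` are followed by `K` consecutive gaps, each at least `lam` times the mean gap, of total length
at most `C K^2 lam` times the mean gap. -/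
theorem result : ∃ c C : ℝ, 0 < c ∧ 0 < C ∧ c * C ≤ 1 / 2 ∧ ∃ X₀ : ℕ, ∀ X : ℕ, X₀ ≤ X →
    ∀ K : ℕ, 1 ≤ K → ∀ lam : ℝ, 1 ≤ lam → K ^ 2 * lam ≤ c * Real.log (Real.log X) →
    Real.exp (-Real.exp (C * (K ^ 2 * lam))) * (X / Real.log X) ≤
      ({n : ℕ | X < Nat.nth Nat.Prime n ∧ Nat.nth Nat.Prime n ≤ 2 * X ∧
        Chain C K lam n}.ncard : ℝ) := by
  obtain ⟨c, C, hc, hC, X₀, h⟩ := Pool.Agent.H.MP_711652_nt.CG.uni_idx
  refine ⟨min c (1 / (2 * C)), C, lt_min hc (by positivity), hC, ?_, max X₀ 3,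
    fun X hX K hK lam hlam hKl => ?_⟩
  · calc min c (1 / (2 * C)) * C ≤ 1 / (2 * C) * C :=
          mul_le_mul_of_nonneg_right (min_le_right _ _) hC.le
      _ = 1 / 2 := by field_simp
  · have hX3 : (3 : ℝ) ≤ X := by exact_mod_cast (le_max_right X₀ 3).trans hX
    have h1 : 1 ≤ Real.log X := by
      rw [← Real.log_exp 1]
      exact Real.log_le_log (Real.exp_pos 1) (by linarith [Real.exp_one_lt_d9])
    refine h X ((le_max_left X₀ 3).trans hX) K hK lam hlam (hKl.trans ?_)
    exact mul_le_mul_of_nonneg_right (min_le_left _ _) (Real.log_nonneg h1)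

end Pool.Agent.Results.MP_711652_nt.LongGapChains
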