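import Mathlib
import Pool.Agent.H.MP_711652_nt.G2.AStar
import Pool.Agent.H.MP_711652_nt.G2.CoreDS
import Pool.Agent.H.MP_711652_nt.G2.CoreD
import Pool.Agent.H.MP_711652_nt.G2.NumH
import Pool.Agent.H.MP_711652_nt.G3.OneRF

/-!
# Long gaps near almost every integer and almost every prime, in all windows at once
-/

set_option autoImplicit false

namespace Pool.Agent.Results.MP_711652_nt.LongGapsAllScales

/-- The factor `max (1, log₂ X log₄ X / (log₃ X log (log X / log H * log₂ X)))`, where `log_j` is the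
`j`-fold iterated logarithm. -/
noncomputable def R (X H : ℝ) : ℝ :=
  max 1 (Real.log (Real.log X) * Real.log (Real.log (Real.log (Real.log X))) /
    (Real.log (Real.log (Real.log X)) * Real.log (Real.log X / Real.log H * Real.log (Real.log X))))

/-- For every real `H` with `M log X ≤ H ≤ X`, some gap between consecutive primes meets
`[n, n + H]` in length at least `c * log X * log log (H / log X) * R X H`. -/
def Good (c : ℝ) (X : ℕ) (M : ℝ) (n : ℕ) : Prop :=
  ∀ H : ℝ, M * Real.log X ≤ H → H ≤ X → ∃ k : ℕ,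
    max (Nat.nth Nat.Prime k : ℝ) n +
        c * Real.log X * Real.log (Real.log (H / Real.log X)) * R X H ≤
      min (Nat.nth Nat.Prime (k + 1) : ℝ) (n + H)

/-- Let `A > 0`.  There are `c > 0`, `C`, `X₀` such that for all `X ≥ X₀` and `M ≥ C` the number of
`n < X` that are not `Good`, plus `log X` times the number of primes `p < X` that are not `Good`, is
at most `(exp (-(log M)^(1/3)) + (log X)^(-A)) X`. -/
theorem result (A : ℝ) (hA : 0 < A) : ∃ c : ℝ, 0 < c ∧ ∃ C : ℝ, ∃ X₀ : ℕ, ∀ X : ℕ, X₀ ≤ X →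
    ∀ M : ℝ, C ≤ M →
      ({n : ℕ | n < X ∧ ¬ Good c X M n}.ncard : ℝ) +
        Real.log X * ({p : ℕ | p < X ∧ p.Prime ∧ ¬ Good c X M p}.ncard : ℝ) ≤
      (Real.exp (-(Real.log M ^ (1 / 3 : ℝ))) + Real.log X ^ (-A)) * X :=
  Pool.Agent.H.MP_711652_nt.G2.astar_of
    (Pool.Agent.H.MP_711652_nt.G2.oneScale_of_coreS
      (Pool.Agent.H.MP_711652_nt.G2.coreS_of_coreD Pool.Agent.H.MP_711652_nt.G2.coreD
        Pool.Agent.H.MP_711652_nt.G2.dFacts))
    Pool.Agent.H.MP_711652_nt.G3.oneScaleR A hA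

end Pool.Agent.Results.MP_711652_nt.LongGapsAllScales
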